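import Pool.Agent.Run7.h818.HB.Two

/-!
# `S₄`-pairs in cubic graphs without linked pairs

A multigraph has the vertices `Fin n` and the edges `Fin m`, `ends e` is the pair of ends of `e`.

* `PerfectMatching ends M`: exactly one edge of `M` at every vertex.
* `Linked ends S T`: `S`, `T` are disjoint sets of vertices of odd size, both induce connected subgraphs
  with circuits of length at least five, and five pairwise disjoint edges join `S` and `T`.

Proof: such a graph has three disjoint perfect matchings (`Pool/Agent/Run7/h818/HB`).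
-/

set_option autoImplicit false

namespace Pool.Agent.Results.MP_9d84f2_co.LongCircuitBonds

open Run7.h818.HB Finset

/-- Let `G` be a loopless cubic multigraph without bridges, that is, without cuts that consist of one
edge.  If `G` has no linked pair, then `G` has two perfect matchings `M₁`, `M₂` such that the graph of
the edges outside `M₁ ∪ M₂` is bipartite; `M₁` and `M₂` are disjoint. -/
theorem result (n m : ℕ) (ends : Fin m → Sym2 (Fin n)) (noloop : ∀ e, ¬ (ends e).IsDiag)
    (cubic : ∀ v, #{e | v ∈ ends e} = 3)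
    (bridgeless : ∀ X : Finset (Fin n),
      #{e | ∃ u, u ∈ X ∧ ∃ w, w ∉ X ∧ ends e = s(u, w)} ≠ 1)
    (h : ∀ S T, ¬ Linked ends S T) :
    ∃ M₁ M₂ : Finset (Fin m), PerfectMatching ends M₁ ∧ PerfectMatching ends M₂ ∧ Disjoint M₁ M₂ ∧
      ∃ c : Fin n → Bool, ∀ e, e ∉ M₁ ∪ M₂ → ∀ u v, ends e = s(u, v) → c u ≠ c v := by
  obtain ⟨M, h1, h2, h3⟩ := family_of_linked ends (mgraph_three ends noloop cubic bridgeless)
    (Or.inl h)
  obtain ⟨c, hc⟩ := two_sides ends noloop (M 2) (h1 2)
  refine ⟨M 0, M 1, h1 0, h1 1, h2 0 1 (by decide), c, fun e he u v huv => hc e ?_ u v huv⟩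
  obtain ⟨i, hi⟩ := h3 e
  rw [mem_union, not_or] at he
  fin_cases i
  · exact absurd hi he.1
  · exact absurd hi he.2
  · exact hi

end Pool.Agent.Results.MP_9d84f2_co.LongCircuitBonds
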